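import Pool.Agent.TH254.RF.Frame

/-!
The indecomposable vectors of norm at most two, their classes (paths of non-orthogonal vectors
can be shortened to length two), and the finiteness of the classes.
-/

set_option autoImplicit false

namespace Pool.Agent.TH254.RF

universe u v

variable {G : Type u} {L : Type v} [Group G] [AddCommGroup L] [DistribMulAction G L]

namespace Frame

variable (F : Frame G L)

/-- the nonzero indecomposable vectors of norm at most two -/
def V : Set L := {x | x ≠ 0 ∧ F.b x x ≤ 2 ∧ F.Ind x}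

lemma ind_smul {x : L} (h : F.Ind x) (g : G) : F.Ind (g • x) := by
  intro u v huv hb
  have h1 : x = g⁻¹ • u + g⁻¹ • v := by rw [← smul_add, ← huv, inv_smul_smul]
  have h2 : F.b (g⁻¹ • u) (g⁻¹ • v) = 0 := by rw [F.inv]; exact hb
  rcases h _ _ h1 h2 with h | h
  · left; rwa [smul_eq_zero_iff_eq] at h
  · right; rwa [smul_eq_zero_iff_eq] at h

lemma ind_neg {x : L} (h : F.Ind x) : F.Ind (-x) := by
  intro u v huv hb
  have h1 : x = -u + -v := by rw [← neg_add, ← huv, neg_neg]
  have h2 : F.b (-u) (-v) = 0 := by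
    rw [map_neg, map_neg, AddMonoidHom.neg_apply, hb]; simp
  rcases h _ _ h1 h2 with h | h
  · left; exact neg_eq_zero.1 h
  · right; exact neg_eq_zero.1 h

lemma b_neg_right (x y : L) : F.b x (-y) = -F.b x y := map_neg _ _

lemma b_neg_left (x y : L) : F.b (-x) y = -F.b x y := by
  rw [map_neg, AddMonoidHom.neg_apply]

lemma V_smul {x : L} (h : x ∈ F.V) (g : G) : g • x ∈ F.V :=
  ⟨fun h0 => h.1 ((smul_eq_zero_iff_eq g).1 h0), by rw [F.inv]; exact h.2.1, F.ind_smul h.2.2 g⟩

lemma V_neg {x : L} (h : x ∈ F.V) : -x ∈ F.V :=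
  ⟨fun h0 => h.1 (neg_eq_zero.1 h0), by rw [F.b_neg_left, F.b_neg_right, neg_neg]; exact h.2.1,
    F.ind_neg h.2.2⟩

lemma V_self {x : L} (h : x ∈ F.V) : F.b x x ≠ 0 := (F.pos x h.1).ne'

/-- vectors of norm one are indecomposable -/
lemma ind_one {x : L} (h : F.b x x = 1) : F.Ind x := by
  intro u v huv hb
  by_contra hcon
  push Not at hcon
  have h1 := F.pos u hcon.1
  have h2 := F.pos v hcon.2
  rw [huv, F.b_add, hb] at h
  omega

lemma V_one {x : L} (h : F.b x x = 1) : x ∈ F.V :=
  ⟨by rintro rfl; simp at h, by omega, F.ind_one h⟩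

lemma pos_pair {y z : L} (hy : y ∈ F.V) (hz : z ∈ F.V) (h : 0 < F.b y z) :
    z = y ∨ (F.b y y = 2 ∧ F.b z z = 2 ∧ F.b y z = 1) := by
  by_cases hyz : z = y
  · left; exact hyz
  right
  have hny := F.pos y hy.1
  have hnz := F.pos z hz.1
  have hy2 := hy.2.1
  have hz2 := hz.2.1
  have hd := F.pos (z - y) (sub_ne_zero.2 hyz)
  rw [F.b_sub, F.symm z y] at hd
  have h1 : F.b y z = 1 := by omega
  have hcase : F.b y y = 1 → False := by
    intro h2
    have h3 : z = y + (z - y) := by abel
    have h4 : F.b y (z - y) = 0 := by rw [map_sub, h1, h2]; norm_num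
    rcases hz.2.2 _ _ h3 h4 with h | h
    · exact hy.1 h
    · exact hyz (sub_eq_zero.1 h)
  have hcase' : F.b z z = 1 → False := by
    intro h2
    have h3 : y = z + (y - z) := by abel
    have h4 : F.b z (y - z) = 0 := by rw [map_sub, F.symm z y, h1, h2]; norm_num
    rcases hy.2.2 _ _ h3 h4 with h | h
    · exact hz.1 h
    · exact hyz (sub_eq_zero.1 h).symm
  have h5 : F.b y y ≠ 1 := hcase
  have h6 : F.b z z ≠ 1 := hcase'
  refine ⟨by omega, by omega, h1⟩

/-- the difference of two roots with product one is indecomposable -/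
lemma V_sub {y z : L} (hy : y ∈ F.V) (hz : z ∈ F.V) (hy2 : F.b y y = 2) (hz2 : F.b z z = 2)
    (h : F.b y z = 1) : y - z ∈ F.V := by
  have hn : F.b (y - z) (y - z) = 2 := by rw [F.b_sub, hy2, hz2, h]; norm_num
  refine ⟨?_, hn.le, ?_⟩
  · intro h0; rw [h0] at hn; simp at hn
  · intro p q hpq hb
    by_contra hcon
    push Not at hcon
    have h1 := F.pos p hcon.1
    have h2 := F.pos q hcon.2
    have h3 := hn
    rw [hpq, F.b_add, hb] at h3
    have hp1 : F.b p p = 1 := by omega
    have hpV := F.V_one hp1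
    have key : ∀ r ∈ F.V, F.b r r = 2 → F.b p r = 0 := by
      intro r hr hr2
      rcases lt_trichotomy (F.b p r) 0 with h | h | h
      · have h' : 0 < F.b p (-r) := by rw [F.b_neg_right]; omega
        rcases F.pos_pair hpV (F.V_neg hr) h' with e | e
        · have : F.b (-r) (-r) = 2 := by rw [F.b_neg_left, F.b_neg_right, neg_neg, hr2]
          rw [e, hp1] at this; omega
        · omega
      · exact h
      · rcases F.pos_pair hpV hr h with e | e
        · rw [e] at hr2; omega
        · omega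
    have h5 : F.b p (y - z) = 0 := by rw [map_sub, key y hy hy2, key z hz hz2]; norm_num
    rw [hpq, map_add, hb, hp1] at h5
    omega

/-- paths of length three can be shortened -/
lemma shorten {x y z t : L} (hy : y ∈ F.V) (hz : z ∈ F.V)
    (h1 : F.b x y ≠ 0) (h2 : F.b y z ≠ 0) (h3 : F.b z t ≠ 0) :
    ∃ v ∈ F.V, F.b x v ≠ 0 ∧ F.b v t ≠ 0 := by
  by_cases hxz : F.b x z = 0
  swap
  · exact ⟨z, hz, hxz, h3⟩
  by_cases hyt : F.b y t = 0
  swap
  · exact ⟨y, hy, h1, hyt⟩
  rcases lt_or_gt_of_ne h2 with h | h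
  · have h' : 0 < F.b y (-z) := by rw [F.b_neg_right]; omega
    rcases F.pos_pair hy (F.V_neg hz) h' with e | ⟨e1, e2, e3⟩
    · exfalso; apply h3
      have : z = -y := by rw [← e, neg_neg]
      rw [this, F.b_neg_left, hyt, neg_zero]
    · refine ⟨y - -z, F.V_sub hy (F.V_neg hz) e1 e2 e3, ?_, ?_⟩
      · rw [map_sub, F.b_neg_right, hxz]; simpa using h1
      · rw [map_sub, AddMonoidHom.sub_apply, F.b_neg_left, hyt]; simpa using h3
  · rcases F.pos_pair hy hz h with e | ⟨e1, e2, e3⟩
    · exfalso; apply h3; rw [e]; exact hyt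
    · refine ⟨y - z, F.V_sub hy hz e1 e2 e3, ?_, ?_⟩
      · rw [map_sub, hxz, sub_zero]; exact h1
      · rw [map_sub, AddMonoidHom.sub_apply, hyt, zero_sub, neg_ne_zero]; exact h3

/-- the relation on the indecomposable vectors of norm at most two -/
def R (x y : L) : Prop := ∃ v ∈ F.V, F.b x v ≠ 0 ∧ F.b v y ≠ 0

lemma R_refl {x : L} (hx : x ∈ F.V) : F.R x x := ⟨x, hx, F.V_self hx, F.V_self hx⟩

lemma R_of_ne {x y : L} (hx : x ∈ F.V) (h : F.b x y ≠ 0) : F.R x y := ⟨x, hx, F.V_self hx, h⟩

lemma R_symm {x y : L} (h : F.R x y) : F.R y x := by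
  obtain ⟨v, hv, h1, h2⟩ := h
  exact ⟨v, hv, by rw [F.symm]; exact h2, by rw [F.symm]; exact h1⟩

lemma R_trans {x y z : L} (hy : y ∈ F.V) (h : F.R x y) (h' : F.R y z) :
    F.R x z := by
  obtain ⟨v, hv, h1, h2⟩ := h
  obtain ⟨w, hw, h3, h4⟩ := h'
  obtain ⟨p, hp, h5, h6⟩ := F.shorten hv hy h1 h2 h3
  exact F.shorten hp hw h5 h6 h4

lemma R_smul {x y : L} (h : F.R x y) (g : G) : F.R (g • x) (g • y) := by
  obtain ⟨v, hv, h1, h2⟩ := h
  exact ⟨g • v, F.V_smul hv g, by rw [F.inv]; exact h1, by rw [F.inv]; exact h2⟩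

/-- the class of `x` -/
def cls (x : L) : Set L := {y | y ∈ F.V ∧ F.R x y}

lemma cls_finite (x : L) : (F.cls x).Finite := by
  have h1 : ∀ y : L, {x : L | x ∈ F.V ∧ F.b x y ≠ 0}.Finite := by
    intro y
    refine (F.finite_neighbours 2 y).subset ?_
    rintro z ⟨hz, hzy⟩
    exact ⟨hz.2.2, by exact_mod_cast hz.2.1, hzy⟩
  refine ((h1 x).biUnion (fun v _ => h1 v)).subset ?_
  rintro y ⟨hy, v, hv, h2, h3⟩
  exact Set.mem_biUnion (x := v) ⟨hv, by rw [F.symm]; exact h2⟩ ⟨hy, by rw [F.symm]; exact h3⟩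

/-- the stabiliser of the class of `x` -/
def stab (x : L) (hx : x ∈ F.V) : Subgroup G where
  carrier := {g | F.R x (g • x)}
  one_mem' := by change F.R x ((1 : G) • x); rw [one_smul]; exact F.R_refl hx
  mul_mem' := by
    intro a b ha hb
    change F.R x ((a * b) • x)
    rw [mul_smul]
    exact F.R_trans (F.V_smul hx a) ha (F.R_smul hb a)
  inv_mem' := by
    intro a ha
    change F.R x (a⁻¹ • x)
    have h := F.R_smul ha a⁻¹
    rw [inv_smul_smul] at h
    exact F.R_symm h

lemma mem_stab {x : L} (hx : x ∈ F.V) (g : G) : g ∈ F.stab x hx ↔ F.R x (g • x) := Iff.rfl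

lemma stab_finite {x : L} (hx : x ∈ F.V) : Finite (F.stab x hx) := by
  have h1 : {g : G | F.R x (g • x)}.Finite := by
    refine ((F.cls_finite x).biUnion (fun y _ => F.fin y x)).subset ?_
    intro g hg
    refine Set.mem_biUnion (x := g • x) ⟨F.V_smul hx g, hg⟩ ?_
    exact F.V_self (F.V_smul hx g)
  exact h1.to_subtype

/-- the relation modulo the group -/
def RG (x y : F.V) : Prop := ∃ g : G, F.R (x : L) (g • (y : L))

lemma RG_equiv : Equivalence F.RG where
  refl x := ⟨1, by rw [one_smul]; exact F.R_refl x.2⟩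
  symm := by
    rintro x y ⟨g, hg⟩
    refine ⟨g⁻¹, ?_⟩
    have h := F.R_smul hg g⁻¹
    rw [inv_smul_smul] at h
    exact F.R_symm h
  trans := by
    rintro x y z ⟨g, hg⟩ ⟨h, hh⟩
    refine ⟨g * h, ?_⟩
    rw [mul_smul]
    exact F.R_trans (F.V_smul y.2 g) hg (F.R_smul hh g)

/-- the setoid of `RG` -/
def setoidG : Setoid F.V := ⟨F.RG, F.RG_equiv⟩

lemma closure_V (hgen : AddSubgroup.closure {x : L | F.b x x ≤ 2} = ⊤) :
    AddSubgroup.closure F.V = ⊤ := by
  rw [eq_top_iff, ← hgen, AddSubgroup.closure_le]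
  intro x hx
  have hx2 : F.b x x ≤ 2 := hx
  by_cases h0 : x = 0
  · rw [h0]; exact zero_mem _
  by_cases hi : F.Ind x
  · exact AddSubgroup.subset_closure ⟨h0, hx2, hi⟩
  · unfold Ind at hi
    push Not at hi
    obtain ⟨u, v, huv, hb, hu, hv⟩ := hi
    have h1 := F.pos u hu
    have h2 := F.pos v hv
    rw [huv, F.b_add, hb] at hx2
    rw [huv]
    exact add_mem (AddSubgroup.subset_closure (F.V_one (by omega)))
      (AddSubgroup.subset_closure (F.V_one (by omega)))

lemma exists_finset_closure {S : Set L} {x : L} (h : x ∈ AddSubgroup.closure S) :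
    ∃ T : Finset L, (T : Set L) ⊆ S ∧ x ∈ AddSubgroup.closure (T : Set L) := by
  classical
  induction h using AddSubgroup.closure_induction with
  | mem x hx => exact ⟨{x}, by simpa using hx, AddSubgroup.subset_closure (by simp)⟩
  | zero => exact ⟨∅, by simp, zero_mem _⟩
  | add x y _ _ hx hy =>
    obtain ⟨T1, h1, h1'⟩ := hx
    obtain ⟨T2, h2, h2'⟩ := hy
    refine ⟨T1 ∪ T2, by rw [Finset.coe_union]; exact Set.union_subset h1 h2, add_mem ?_ ?_⟩
    · exact AddSubgroup.closure_mono (by rw [Finset.coe_union]; exact Set.subset_union_left) h1'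
    · exact AddSubgroup.closure_mono (by rw [Finset.coe_union]; exact Set.subset_union_right) h2'
  | neg x _ hx =>
    obtain ⟨T, h1, h2⟩ := hx
    exact ⟨T, h1, neg_mem h2⟩

lemma orth_closure {S : Set L} {x y : L} (hy : y ∈ AddSubgroup.closure S)
    (h : ∀ s ∈ S, F.b x s = 0) : F.b x y = 0 := by
  induction hy using AddSubgroup.closure_induction with
  | mem z hz => exact h z hz
  | zero => exact map_zero _
  | add u v _ _ hu hv => rw [map_add, hu, hv, add_zero]
  | neg u _ hu => rw [map_neg, hu, neg_zero]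

/-- finitely many classes modulo the group -/
lemma finite_quot (hgen : AddSubgroup.closure {x : L | F.b x x ≤ 2} = ⊤) :
    Finite (Quotient F.setoidG) := by
  classical
  have hV := F.closure_V hgen
  have h1 : ∀ i : Fin F.n, ∃ T : Finset L, (T : Set L) ⊆ F.V ∧
      F.e i ∈ AddSubgroup.closure (T : Set L) := by
    intro i
    exact exists_finset_closure (by rw [hV]; trivial)
  choose T hT hTe using h1
  set U : Finset L := Finset.univ.biUnion T with hU
  have hUV : ∀ t ∈ U, t ∈ F.V := by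
    intro t ht
    obtain ⟨i, -, hi⟩ := Finset.mem_biUnion.1 ht
    exact hT i hi
  have hsurj : ∀ q : Quotient F.setoidG, ∃ t : U, (Quotient.mk F.setoidG ⟨t, hUV t t.2⟩) = q := by
    intro q
    induction q using Quotient.inductionOn with
    | h x =>
      by_contra hcon
      push Not at hcon
      have h2 : ∀ t ∈ U, ∀ g : G, F.b (x : L) (g • t) = 0 := by
        intro t ht g
        by_contra h
        refine hcon ⟨t, ht⟩ (Quotient.sound ?_)
        exact F.RG_equiv.symm ⟨g, F.R_of_ne x.2 h⟩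
      have h3 : ∀ (g : G) (i : Fin F.n), F.b (x : L) (g • F.e i) = 0 := by
        intro g i
        have h4 : F.b (g⁻¹ • (x : L)) (F.e i) = 0 := by
          refine F.orth_closure (hTe i) ?_
          intro s hs
          rw [F.inv', inv_inv]
          exact h2 s (Finset.mem_biUnion.2 ⟨i, Finset.mem_univ i, hs⟩) g
        rw [F.inv', inv_inv] at h4
        exact h4
      have h5 : F.b (x : L) (x : L) = 0 := by
        conv_lhs =>
          rw [F.frame (x : L) (F.S x) (fun p hp => (F.mem_S x p).2 hp)]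
        rw [b_sum_left]
        refine Finset.sum_eq_zero fun p _ => ?_
        rw [b_zsmul_left]
        have : F.b (p.1 • F.e p.2) (∑ p ∈ F.S (x : L), F.b (x : L) (p.1 • F.w p.2) •
            (p.1 • F.e p.2)) = 0 := by
          rw [← F.frame (x : L) (F.S x) (fun p hp => (F.mem_S x p).2 hp), F.symm]
          exact h3 p.1 p.2
        rw [this, mul_zero]
      exact F.V_self x.2 h5
  exact Finite.of_surjective _ hsurj

end Frame

end Pool.Agent.TH254.RF
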