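import Mathlib

/-!
Positive definite hermitian forms over the integral group ring of a group `G`, with respect to
the involution `∑ a_g g ↦ ∑ a_g g⁻¹`, and forms induced from finite subgroups of `G`.
-/

set_option autoImplicit false

namespace Pool.Agent.TH254.RF

universe u v

variable {G : Type u} [Group G] {L : Type v} [AddCommGroup L] [Module (MonoidAlgebra ℤ G) L]

/-- `lam` is a hermitian form on the left `ℤ[G]`-module `L`: it is linear in the first variable,
and `lam y x` is the image of `lam x y` under the involution `g ↦ g⁻¹`. -/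
structure IsHermitian (lam : L → L → MonoidAlgebra ℤ G) : Prop where
  add_left : ∀ x y z, lam (x + y) z = lam x z + lam y z
  smul_left : ∀ (a : MonoidAlgebra ℤ G) (x y : L), lam (a • x) y = a * lam x y
  herm : ∀ (x y : L) (g : G), (lam y x).coeff g = (lam x y).coeff g⁻¹

/-- `lam` is positive definite: the coefficient of `lam x x` at the unit element of `G`, the
norm of `x`, is positive for every `x ≠ 0`. -/
def PositiveDefinite (lam : L → L → MonoidAlgebra ℤ G) : Prop :=
  ∀ x, x ≠ 0 → 0 < (lam x x).coeff 1

/-- `lam` is nonsingular: every linear map `L → ℤ[G]` is `x ↦ lam x w` for exactly one `w`. -/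
def Nonsingular (lam : L → L → MonoidAlgebra ℤ G) : Prop :=
  ∀ φ : L →ₗ[MonoidAlgebra ℤ G] MonoidAlgebra ℤ G, ∃! w : L, ∀ x, φ x = lam x w

/-- The form `lam` is the orthogonal sum of the forms induced from the lattices `K i` with the
action of the finite subgroups `F i` of `G`: the `K i` are finitely generated subgroups of `L`,
stable under `F i`, the form `(x, y) ↦ (lam x y)_1` is unimodular on `K i`, and the translates
`g K i` of the `K i`, where `g` runs over `G / F i`, are orthogonal to each other and generate
`L`. (For positive definite `lam` it follows that `L` is the direct sum of the modules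
`ℤ[G] ⊗_{ℤ[F i]} K i`.) -/
structure InducedFrom (lam : L → L → MonoidAlgebra ℤ G) {m : ℕ} (F : Fin m → Subgroup G)
    (K : Fin m → AddSubgroup L) : Prop where
  finite : ∀ i, Finite (F i)
  fg : ∀ i, (K i).FG
  stable : ∀ i, ∀ g ∈ F i, ∀ x ∈ K i, MonoidAlgebra.single g (1 : ℤ) • x ∈ K i
  unimodular : ∀ i, ∀ φ : K i →+ ℤ, ∃ w ∈ K i, ∀ x : K i, φ x = (lam x w).coeff 1
  supported : ∀ i, ∀ x ∈ K i, ∀ y ∈ K i, ∀ g : G, g ∉ F i → (lam x y).coeff g = 0
  orthogonal : ∀ i j, i ≠ j → ∀ x ∈ K i, ∀ y ∈ K j, lam x y = 0
  generate : Submodule.span (MonoidAlgebra ℤ G) (⋃ i, (K i : Set L)) = ⊤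

end Pool.Agent.TH254.RF
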