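import Mathlib

/-!
Groups acting on a positive definite integral lattice with a dual frame of finite propagation:
only finitely many indecomposable vectors of bounded norm are not orthogonal to a given vector.
-/

set_option autoImplicit false

namespace Pool.Agent.TH254.RF

universe u v

variable {G : Type u} {L : Type v} [Group G] [AddCommGroup L] [DistribMulAction G L]

/-- an invariant positive definite integral form with finite propagation and a dual frame -/
structure Frame (G : Type u) (L : Type v) [Group G] [AddCommGroup L] [DistribMulAction G L] where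
  b : L →+ L →+ ℤ
  symm : ∀ x y, b x y = b y x
  inv : ∀ (g : G) (x y : L), b (g • x) (g • y) = b x y
  pos : ∀ x, x ≠ 0 → 0 < b x x
  fin : ∀ x y : L, {g : G | b x (g • y) ≠ 0}.Finite
  n : ℕ
  e : Fin n → L
  w : Fin n → L
  frame : ∀ (x : L) (s : Finset (G × Fin n)), (∀ p : G × Fin n, b x (p.1 • w p.2) ≠ 0 → p ∈ s) →
    x = ∑ p ∈ s, b x (p.1 • w p.2) • (p.1 • e p.2)

namespace Frame

variable (F : Frame G L)

lemma nonneg (x : L) : 0 ≤ F.b x x := by
  by_cases h : x = 0
  · subst h; simp
  · exact (F.pos x h).le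

lemma eq_zero {x : L} (h : F.b x x = 0) : x = 0 := by
  by_contra hx
  exact absurd h (F.pos x hx).ne'

lemma b_sub (x y : L) : F.b (x - y) (x - y) = F.b x x - 2 * F.b x y + F.b y y := by
  rw [map_sub F.b, AddMonoidHom.sub_apply, map_sub, map_sub, F.symm y x]; ring

lemma b_add (x y : L) : F.b (x + y) (x + y) = F.b x x + 2 * F.b x y + F.b y y := by
  rw [map_add F.b, AddMonoidHom.add_apply, map_add, map_add, F.symm y x]; ring

lemma b_zsmul_left (c : ℤ) (x y : L) : F.b (c • x) y = c * F.b x y := by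
  rw [map_zsmul, AddMonoidHom.zsmul_apply, smul_eq_mul]

lemma b_zsmul_right (c : ℤ) (x y : L) : F.b x (c • y) = c * F.b x y := by
  rw [map_zsmul, smul_eq_mul]

lemma b_sum_left {ι : Type*} (s : Finset ι) (f : ι → L) (y : L) :
    F.b (∑ i ∈ s, f i) y = ∑ i ∈ s, F.b (f i) y := by
  rw [map_sum, AddMonoidHom.finsetSum_apply]

lemma b_sum_right {ι : Type*} (s : Finset ι) (f : ι → L) (x : L) :
    F.b x (∑ i ∈ s, f i) = ∑ i ∈ s, F.b x (f i) := by
  rw [map_sum]

lemma inv' (g : G) (x y : L) : F.b (g • x) y = F.b x (g⁻¹ • y) := by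
  rw [← F.inv g x (g⁻¹ • y), smul_inv_smul]

/-- a Bessel inequality for integral forms -/
lemma bessel {ι : Type*} (T : Finset ι) (β : ι → L) (x : L) (c : ℤ) (hc : 0 < c)
    (h1 : ∀ p ∈ T, F.b (β p) (β p) ≤ c) (h2 : ∀ p ∈ T, ∀ q ∈ T, p ≠ q → F.b (β p) (β q) = 0)
    (h3 : ∀ p ∈ T, F.b x (β p) ≠ 0) : (T.card : ℤ) ≤ c * F.b x x := by
  classical
  set y : L := ∑ p ∈ T, (F.b x (β p)).sign • β p with hy
  have e1 : F.b x y = ∑ p ∈ T, |F.b x (β p)| := by
    rw [hy, b_sum_right]
    refine Finset.sum_congr rfl fun p _ => ?_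
    rw [b_zsmul_right, Int.sign_mul_self_eq_abs]
  have e2 : F.b y y = ∑ p ∈ T, F.b (β p) (β p) := by
    rw [hy, b_sum_left]
    refine Finset.sum_congr rfl fun p hp => ?_
    rw [b_sum_right, Finset.sum_eq_single p]
    · rw [b_zsmul_left, b_zsmul_right, ← mul_assoc]
      have : (F.b x (β p)).sign * (F.b x (β p)).sign = 1 := by
        rcases lt_or_gt_of_ne (h3 p hp) with h | h
        · rw [Int.sign_eq_neg_one_of_neg h]; norm_num
        · rw [Int.sign_eq_one_of_pos h]; norm_num
      rw [this, one_mul]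
    · intro q hq hqp
      rw [b_zsmul_left, b_zsmul_right, h2 p hp q hq (Ne.symm hqp)]; simp
    · intro h; exact absurd hp h
  have h4 : (T.card : ℤ) ≤ F.b x y := by
    rw [e1, Finset.card_eq_sum_ones, Nat.cast_sum]
    refine Finset.sum_le_sum fun p hp => ?_
    have := abs_pos.2 (h3 p hp)
    push_cast; omega
  have h5 : F.b y y ≤ c * T.card := by
    rw [e2, Finset.card_eq_sum_ones, Nat.cast_sum, Finset.mul_sum]
    refine Finset.sum_le_sum fun p hp => ?_
    have := h1 p hp
    push_cast; linarith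
  have h6 := F.nonneg (c • x - y)
  rw [b_sub, b_zsmul_left, b_zsmul_right, b_zsmul_left] at h6
  nlinarith

/-- the translates of a finite family -/
lemma fin_pairs {n : ℕ} (v : Fin n → L) (x : L) :
    {p : G × Fin n | F.b x (p.1 • v p.2) ≠ 0}.Finite := by
  refine (Set.finite_iUnion (fun i : Fin n => (F.fin x (v i)).image (fun g => (g, i)))).subset ?_
  rintro ⟨g, i⟩ h
  exact Set.mem_iUnion.2 ⟨i, ⟨g, h, rfl⟩⟩

/-- an upper bound for the norms of the `w i` -/
def c : ℤ := 1 + ∑ i, F.b (F.w i) (F.w i)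

lemma c_pos : 0 < F.c := by
  have : 0 ≤ ∑ i, F.b (F.w i) (F.w i) := Finset.sum_nonneg fun i _ => F.nonneg _
  unfold c; omega

lemma w_le (g : G) (i : Fin F.n) : F.b (g • F.w i) (g • F.w i) ≤ F.c := by
  rw [F.inv]
  have := Finset.single_le_sum (f := fun i => F.b (F.w i) (F.w i)) (fun i _ => F.nonneg _)
    (Finset.mem_univ i)
  unfold c; omega

/-- the translates of the `w i` not orthogonal to `x` -/
noncomputable def S (x : L) : Finset (G × Fin F.n) := (F.fin_pairs F.w x).toFinset

lemma mem_S (x : L) (p : G × Fin F.n) : p ∈ F.S x ↔ F.b x (p.1 • F.w p.2) ≠ 0 := by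
  rw [S, Set.Finite.mem_toFinset]; rfl

/-- bound for the number of neighbours -/
noncomputable def D : ℕ := ∑ j, (F.S (F.w j)).card

lemma card_neighbours (t : G × Fin F.n) : (F.S (t.1 • F.w t.2)).card ≤ F.D := by
  classical
  have h1 : (F.S (t.1 • F.w t.2)).card ≤ (F.S (F.w t.2)).card := by
    refine Finset.card_le_card_of_injOn (fun p => (t.1⁻¹ * p.1, p.2)) ?_ ?_
    · intro p hp
      have hp' := (F.mem_S _ _).1 (Finset.mem_coe.1 hp)
      refine Finset.mem_coe.2 ((F.mem_S _ _).2 ?_)
      rw [F.inv'] at hp'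
      rwa [mul_smul]
    · intro p _ q _ h
      have h1 := congrArg Prod.fst h
      have h2 := congrArg Prod.snd h
      exact Prod.ext (mul_left_cancel h1) h2
  refine h1.trans ?_
  exact Finset.single_le_sum (f := fun j => (F.S (F.w j)).card) (fun i _ => Nat.zero_le _)
    (Finset.mem_univ t.2)

/-- **vectors of bounded norm have bounded support** -/
lemma card_S_le (m : ℕ) (x : L) (hx : F.b x x ≤ m) : (F.S x).card ≤ (F.c * m).toNat * F.D := by
  classical
  set P : Finset (Finset (G × Fin F.n)) := (F.S x).powerset.filter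
    (fun T => ∀ p ∈ T, ∀ q ∈ T, p ≠ q → F.b (p.1 • F.w p.2) (q.1 • F.w q.2) = 0) with hP
  have hne : P.Nonempty := ⟨∅, by simp [hP]⟩
  obtain ⟨T, hT, hmax⟩ := P.exists_max_image Finset.card hne
  rw [hP, Finset.mem_filter, Finset.mem_powerset] at hT
  obtain ⟨hTS, horth⟩ := hT
  have hcard : (T.card : ℤ) ≤ F.c * m := by
    have h1 := F.bessel T (fun p => p.1 • F.w p.2) x F.c F.c_pos (fun p _ => F.w_le p.1 p.2) horth
      (fun p hp => (F.mem_S x p).1 (hTS hp))
    exact h1.trans (mul_le_mul_of_nonneg_left hx F.c_pos.le)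
  have hcover : F.S x ⊆ T.biUnion (fun t => F.S (t.1 • F.w t.2)) := by
    intro p hp
    rw [Finset.mem_biUnion]
    have hp0 := (F.mem_S x p).1 hp
    by_contra hcon
    push Not at hcon
    have hpp : F.b (p.1 • F.w p.2) (p.1 • F.w p.2) ≠ 0 := by
      intro h
      apply hp0
      rw [F.eq_zero h, map_zero]
    have hpT : p ∉ T := by
      intro h
      exact hcon p h ((F.mem_S _ _).2 hpp)
    have horth' : ∀ t ∈ T, F.b (t.1 • F.w t.2) (p.1 • F.w p.2) = 0 := by
      intro t ht
      by_contra h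
      exact hcon t ht ((F.mem_S _ _).2 h)
    have hins : insert p T ∈ P := by
      rw [hP, Finset.mem_filter, Finset.mem_powerset]
      refine ⟨Finset.insert_subset hp hTS, ?_⟩
      intro a ha b hb hab
      rw [Finset.mem_insert] at ha hb
      rcases ha with rfl | ha <;> rcases hb with rfl | hb
      · exact absurd rfl hab
      · rw [F.symm]; exact horth' b hb
      · exact horth' a ha
      · exact horth a ha b hb hab
    have := hmax _ hins
    rw [Finset.card_insert_of_notMem hpT] at this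
    omega
  calc (F.S x).card ≤ (T.biUnion (fun t => F.S (t.1 • F.w t.2))).card := Finset.card_le_card hcover
    _ ≤ T.card * F.D := Finset.card_biUnion_le_card_mul _ _ _ (fun t _ => F.card_neighbours t)
    _ ≤ (F.c * m).toNat * F.D := by
        refine Nat.mul_le_mul_right _ ?_
        omega

/-- indecomposable vectors -/
def Ind (x : L) : Prop := ∀ u v, x = u + v → F.b u v = 0 → u = 0 ∨ v = 0

/-- the balls about the translates of the `e i` not orthogonal to `y` -/
noncomputable def ball (y : L) : ℕ → Finset (G × Fin F.n)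
  | 0 => (F.fin_pairs F.e y).toFinset
  | k + 1 => by
    classical
    exact ball y k ∪ (ball y k).biUnion (fun q => (F.fin_pairs F.e (q.1 • F.e q.2)).toFinset)

lemma mem_ball_zero (y : L) (p : G × Fin F.n) : p ∈ F.ball y 0 ↔ F.b y (p.1 • F.e p.2) ≠ 0 := by
  rw [ball, Set.Finite.mem_toFinset]; rfl

lemma mem_ball_succ (y : L) (k : ℕ) (p : G × Fin F.n) : p ∈ F.ball y (k + 1) ↔
    p ∈ F.ball y k ∨ ∃ q ∈ F.ball y k, F.b (q.1 • F.e q.2) (p.1 • F.e p.2) ≠ 0 := by
  classical
  rw [ball, Finset.mem_union, Finset.mem_biUnion]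
  simp only [Set.Finite.mem_toFinset]
  rfl

lemma ball_mono (y : L) : Monotone (F.ball y) := by
  refine monotone_nat_of_le_succ fun k p hp => ?_
  exact (F.mem_ball_succ y k p).2 (Or.inl hp)

/-- pigeonhole -/
lemma exists_stable (y : L) (T : Finset (G × Fin F.n)) (M : ℕ) (hM : T.card ≤ M) :
    ∃ k ≤ M, ∀ p ∈ T, p ∈ F.ball y (k + 1) → p ∈ F.ball y k := by
  classical
  by_contra hcon
  push Not at hcon
  have key : ∀ k ≤ M + 1, k ≤ (T ∩ F.ball y k).card := by
    intro k
    induction k with
    | zero => intro _; exact Nat.zero_le _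
    | succ k ih =>
      intro hk
      have h1 := ih (by omega)
      obtain ⟨p, hpT, hp1, hp2⟩ := hcon k (by omega)
      have h2 : (T ∩ F.ball y k) ⊂ (T ∩ F.ball y (k + 1)) := by
        refine ⟨Finset.inter_subset_inter_left (F.ball_mono y (Nat.le_succ k)), ?_⟩
        intro h
        exact hp2 (Finset.mem_inter.1 (h (Finset.mem_inter.2 ⟨hpT, hp1⟩))).2
      have := Finset.card_lt_card h2
      omega
  have h1 := key (M + 1) le_rfl
  have h2 : (T ∩ F.ball y (M + 1)).card ≤ T.card := Finset.card_le_card Finset.inter_subset_left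
  omega

/-- **finitely many indecomposable vectors of bounded norm are not orthogonal to `y`** -/
lemma finite_neighbours (m : ℕ) (y : L) : {x : L | F.Ind x ∧ F.b x x ≤ m ∧ F.b x y ≠ 0}.Finite := by
  classical
  set M : ℕ := (F.c * m).toNat * F.D with hM
  set C : ℤ := m + F.c with hC
  set fs : Finset (F.ball y M → ℤ) := Fintype.piFinset (fun _ => Finset.Icc (-C) C) with hfs
  refine (fs.finite_toSet.image (fun f => ∑ p : F.ball y M, f p • ((p : G × Fin F.n).1 •
    F.e (p : G × Fin F.n).2))).subset ?_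
  rintro x ⟨hind, hnorm, hxy⟩
  obtain ⟨k, hk, hst⟩ := F.exists_stable y (F.S x) M (F.card_S_le m x hnorm)
  set cf : G × Fin F.n → ℤ := fun p => F.b x (p.1 • F.w p.2) with hcf
  set E : G × Fin F.n → L := fun p => p.1 • F.e p.2 with hE
  have hx : x = ∑ p ∈ F.S x, cf p • E p := F.frame x (F.S x) (fun p hp => (F.mem_S x p).2 hp)
  set x1 : L := ∑ p ∈ (F.S x).filter (fun p => p ∈ F.ball y k), cf p • E p with hx1
  set x2 : L := ∑ p ∈ (F.S x).filter (fun p => p ∉ F.ball y k), cf p • E p with hx2
  have h12 : x = x1 + x2 := by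
    rw [hx1, hx2, Finset.sum_filter_add_sum_filter_not]; exact hx
  have horth : F.b x1 x2 = 0 := by
    rw [hx1, hx2, b_sum_left]
    refine Finset.sum_eq_zero fun p hp => ?_
    rw [b_sum_right]
    refine Finset.sum_eq_zero fun q hq => ?_
    rw [Finset.mem_filter] at hp hq
    rw [b_zsmul_left, b_zsmul_right]
    have : F.b (E p) (E q) = 0 := by
      by_contra h
      exact hq.2 (hst q hq.1 ((F.mem_ball_succ y k q).2 (Or.inr ⟨p, hp.2, h⟩)))
    rw [this]; simp
  have h2y : F.b x2 y = 0 := by
    rw [hx2, b_sum_left]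
    refine Finset.sum_eq_zero fun q hq => ?_
    rw [Finset.mem_filter] at hq
    rw [b_zsmul_left]
    have : F.b (E q) y = 0 := by
      by_contra h
      refine hq.2 (F.ball_mono y (Nat.zero_le k) ((F.mem_ball_zero y q).2 ?_))
      rw [F.symm]; exact h
    rw [this]; simp
  have h1 : x1 ≠ 0 := by
    intro h
    apply hxy
    rw [h12, h, zero_add, h2y]
  have h2 : x2 = 0 := (hind x1 x2 h12 horth).resolve_left h1
  refine ⟨fun p => if (p : G × Fin F.n) ∈ (F.S x).filter (fun p => p ∈ F.ball y k)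
    then cf p else 0, ?_, ?_⟩
  · rw [Finset.mem_coe, hfs, Fintype.mem_piFinset]
    intro p
    rw [Finset.mem_Icc]
    have hcpos := F.c_pos
    split_ifs with h
    · have b1 := F.nonneg (x - (p : G × Fin F.n).1 • F.w (p : G × Fin F.n).2)
      have b2 := F.nonneg (x + (p : G × Fin F.n).1 • F.w (p : G × Fin F.n).2)
      rw [b_sub] at b1
      rw [b_add] at b2
      have b3 := F.w_le (p : G × Fin F.n).1 (p : G × Fin F.n).2
      have b4 : cf p = F.b x ((p : G × Fin F.n).1 • F.w (p : G × Fin F.n).2) := rfl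
      rw [b4]
      constructor <;> omega
    · constructor <;> omega
  · change ∑ p : F.ball y M, (if (p : G × Fin F.n) ∈ (F.S x).filter (fun p => p ∈ F.ball y k)
      then cf p else 0) • E p = x
    rw [Finset.sum_coe_sort (F.ball y M) (fun p => (if p ∈ (F.S x).filter (fun p => p ∈ F.ball y k)
      then cf p else 0) • E p)]
    have h3 : ∑ p ∈ F.ball y M, (if p ∈ (F.S x).filter (fun p => p ∈ F.ball y k)
        then cf p else 0) • E p = ∑ p ∈ (F.S x).filter (fun p => p ∈ F.ball y k), cf p • E p := by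
      symm
      rw [← Finset.sum_subset (s₁ := (F.S x).filter (fun p => p ∈ F.ball y k)) (s₂ := F.ball y M)]
      · refine Finset.sum_congr rfl fun p hp => ?_
        rw [if_pos hp]
      · intro p hp
        exact F.ball_mono y hk (Finset.mem_filter.1 hp).2
      · intro p _ hp
        rw [if_neg hp, zero_smul]
    rw [h3, ← hx1]
    conv_rhs => rw [h12, h2, add_zero]

end Frame

end Pool.Agent.TH254.RF
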