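import Pool.Agent.TH254.RF.Main

/-!
Torsion-free groups: the module is free and the form is extended from the integers.
-/

set_option autoImplicit false

namespace Pool.Agent.TH254.RF

universe u v

open MonoidAlgebra (single)

variable {G : Type u} [Group G] {L : Type v} [AddCommGroup L] [Module (MonoidAlgebra ℤ G) L]
  {lam : L → L → MonoidAlgebra ℤ G}

lemma bform_self_eq_zero (h : IsHermitian lam) (hpos : PositiveDefinite lam) {x : L}
    (hx : bform h x x = 0) : x = 0 := by
  by_contra h0
  exact absurd hx (hpos x h0).ne'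

lemma bform_comm (h : IsHermitian lam) (x y : L) : bform h x y = bform h y x := by
  change (lam x y).coeff 1 = (lam y x).coeff 1
  rw [h.herm x y 1, inv_one]

lemma bform_sum_left (h : IsHermitian lam) {ι : Type*} (s : Finset ι) (f : ι → L) (y : L) :
    bform h (∑ i ∈ s, f i) y = ∑ i ∈ s, bform h (f i) y := by
  rw [map_sum, AddMonoidHom.finsetSum_apply]

lemma bform_zsmul_left (h : IsHermitian lam) (c : ℤ) (x y : L) :
    bform h (c • x) y = c * bform h x y := by
  rw [map_zsmul, AddMonoidHom.zsmul_apply, smul_eq_mul]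

lemma bform_zsmul_right (h : IsHermitian lam) (c : ℤ) (x y : L) :
    bform h x (c • y) = c * bform h x y := by
  rw [map_zsmul, smul_eq_mul]

/-- a finitely generated subgroup is free -/
lemma free_of_fg (h : IsHermitian lam) (hpos : PositiveDefinite lam) (K : AddSubgroup L)
    (hK : K.FG) : ∃ d : ℕ, Nonempty (Module.Basis (Fin d) ℤ K) := by
  have htf : ∀ (n : ℤ) (x : L), n • x = 0 → n = 0 ∨ x = 0 := by
    intro n x hx
    by_cases hn : n = 0
    · left; exact hn
    right
    have h1 : n * bform h x x = 0 := by rw [← bform_zsmul_left, hx]; simp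
    exact bform_self_eq_zero h hpos ((mul_eq_zero.1 h1).resolve_left hn)
  have : Module.Finite ℤ K := by
    rw [Module.Finite.iff_addGroup_fg]
    exact (AddGroup.fg_iff_addSubgroup_fg K).2 hK
  have hT : Module.IsTorsionFree ℤ K := Module.IsTorsionFree.of_smul_eq_zero (by
    intro n x hx
    have h1 : n • (x : L) = 0 := by
      have := congrArg (fun y : K => (y : L)) hx
      simpa using this
    rcases htf n x h1 with h2 | h2
    · left; exact h2
    · right; exact Subtype.ext h2)
  have hfree : Module.Free ℤ K := Module.free_of_finite_type_torsion_free'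
  exact ⟨_, ⟨Module.finBasis ℤ K⟩⟩

/-- **torsion-free groups** -/
theorem main_free (h : IsHermitian lam) (hpos : PositiveDefinite lam) (hns : Nonsingular lam)
    (hG : ∀ (g : G) (k : ℕ), 0 < k → g ^ k = 1 → g = 1) {m : ℕ} {F : Fin m → Subgroup G}
    {K : Fin m → AddSubgroup L} (hI : InducedFrom lam F K) :
    ∃ (N : ℕ) (v : Module.Basis (Fin N) (MonoidAlgebra ℤ G) L) (C : Matrix (Fin N) (Fin N) ℤ),
      IsUnit C.det ∧ ∀ i j, lam (v i) (v j) = single 1 (C i j) := by
  classical
  have htriv : ∀ (i : Fin m) (g : G), g ≠ 1 → g ∉ F i := by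
    intro i g hg hgF
    apply hg
    have := hI.finite i
    obtain ⟨k, hk, hk1⟩ := (isOfFinOrder_iff_pow_eq_one (x := (⟨g, hgF⟩ : F i))).1
      (isOfFinOrder_of_finite _)
    refine hG g k hk ?_
    have := congrArg (fun y : F i => (y : G)) hk1
    simpa using this
  have hsame : ∀ (i : Fin m) (x y : L), x ∈ K i → y ∈ K i →
      lam x y = single 1 ((lam x y).coeff 1) := by
    intro i x y hx hy
    apply MonoidAlgebra.coeff_injective
    ext g
    rw [MonoidAlgebra.coeff_single]
    by_cases hg : g = 1
    · subst hg; simp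
    · rw [hI.supported i x hx y hy g (htriv i g hg), Finsupp.single_apply, if_neg (Ne.symm hg)]
  have hd : ∀ i, ∃ d : ℕ, Nonempty (Module.Basis (Fin d) ℤ (K i)) :=
    fun i => free_of_fg h hpos (K i) (hI.fg i)
  choose d hd using hd
  let v : ∀ i, Module.Basis (Fin (d i)) ℤ (K i) := fun i => (hd i).some
  let vec : (Σ i, Fin (d i)) → L := fun p => (v p.1 p.2 : L)
  have hvec : ∀ p, vec p ∈ K p.1 := fun p => (v p.1 p.2).2
  -- independence over the integers
  have hindZ : ∀ n : (Σ i, Fin (d i)) → ℤ, ∑ p, n p • vec p = 0 → ∀ p, n p = 0 := by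
    intro n hn
    let z : ∀ i, K i := fun i => ∑ l, n ⟨i, l⟩ • v i l
    have hz : ∀ i, ((z i : K i) : L) = ∑ l, n ⟨i, l⟩ • vec ⟨i, l⟩ := by
      intro i
      change ((∑ l, n ⟨i, l⟩ • v i l : K i) : L) = _
      rw [AddSubgroup.val_finsetSum]
      rfl
    have hsum : ∑ i, ((z i : K i) : L) = 0 := by
      rw [← hn, Fintype.sum_sigma]
      exact Finset.sum_congr rfl fun i _ => hz i
    have hz0 : ∀ i, z i = 0 := by
      intro i
      apply Subtype.ext
      apply bform_self_eq_zero h hpos
      have h1 : bform h (∑ j, ((z j : K j) : L)) ((z i : K i) : L) = 0 := by rw [hsum]; simp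
      rw [bform_sum_left, Finset.sum_eq_single i] at h1
      · exact h1
      · intro j _ hji
        change (lam _ _).coeff 1 = 0
        rw [hI.orthogonal j i hji _ (z j).2 _ (z i).2]; rfl
      · simp
    rintro ⟨i, l⟩
    exact Fintype.linearIndependent_iff.1 (v i).linearIndependent (fun l => n ⟨i, l⟩) (hz0 i) l
  -- the products of the basis vectors
  have hprod : ∀ p q, lam (vec p) (vec q) = single 1 ((lam (vec p) (vec q)).coeff 1) := by
    intro p q
    by_cases hpq : p.1 = q.1
    · exact hsame p.1 _ _ (hvec p) (by rw [hpq]; exact hvec q)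
    · rw [hI.orthogonal p.1 q.1 hpq _ (hvec p) _ (hvec q)]; simp
  have hind : LinearIndependent (MonoidAlgebra ℤ G) vec := by
    rw [Fintype.linearIndependent_iff]
    intro a ha p
    apply MonoidAlgebra.coeff_injective
    ext g
    have h1 : ∀ q, ∑ p, (a p).coeff g * (lam (vec p) (vec q)).coeff 1 = 0 := by
      intro q
      have h2 : lam (∑ p, a p • vec p) (vec q) = ∑ p, a p * lam (vec p) (vec q) := by
        have h3 : ∀ s : Finset (Σ i, Fin (d i)), lam (∑ p ∈ s, a p • vec p) (vec q) =
            ∑ p ∈ s, a p * lam (vec p) (vec q) := by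
          intro s
          induction s using Finset.induction_on with
          | empty => rw [Finset.sum_empty, Finset.sum_empty, zero_left h]
          | insert p s hp ih =>
            rw [Finset.sum_insert hp, Finset.sum_insert hp, h.add_left, h.smul_left, ih]
        exact h3 _
      rw [ha, zero_left h] at h2
      have h4 := congrArg (fun x : MonoidAlgebra ℤ G => x.coeff g) h2.symm
      simp only [MonoidAlgebra.coeff_sum, Finsupp.finsetSum_apply, MonoidAlgebra.coeff_zero,
        Finsupp.coe_zero, Pi.zero_apply] at h4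
      rw [← h4]
      refine Finset.sum_congr rfl fun p _ => ?_
      rw [hprod p q, MonoidAlgebra.coeff_mul_single_apply]
      simp
    have h5 : ∑ p, (a p).coeff g • vec p = 0 := by
      apply bform_self_eq_zero h hpos
      rw [bform_comm, bform_sum_left]
      refine Finset.sum_eq_zero fun q _ => ?_
      rw [bform_zsmul_left, bform_comm, bform_sum_left]
      have h6 : ∑ p, bform h ((a p).coeff g • vec p) (vec q) = 0 := by
        rw [← h1 q]
        refine Finset.sum_congr rfl fun p _ => ?_
        rw [bform_zsmul_left]; rfl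
      rw [h6, mul_zero]
    exact hindZ _ h5 p
  have hspan : ⊤ ≤ Submodule.span (MonoidAlgebra ℤ G) (Set.range vec) := by
    rw [← hI.generate, Submodule.span_le]
    intro x hx
    obtain ⟨i, hi⟩ := Set.mem_iUnion.1 hx
    have h1 : (⟨x, hi⟩ : K i) = ∑ l, (v i).repr ⟨x, hi⟩ l • v i l := ((v i).sum_repr _).symm
    have h2 : x = ∑ l, (v i).repr ⟨x, hi⟩ l • vec ⟨i, l⟩ := by
      have := congrArg (fun y : K i => (y : L)) h1
      simp only [AddSubgroup.val_finsetSum] at this
      exact this
    rw [h2]
    refine Submodule.sum_mem _ fun l _ => ?_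
    have h3 : vec ⟨i, l⟩ ∈ Submodule.span (MonoidAlgebra ℤ G) (Set.range vec) :=
      Submodule.subset_span ⟨_, rfl⟩
    exact zsmul_mem h3 _
  let B := Module.Basis.mk hind hspan
  let e := Fintype.equivFin (Σ i, Fin (d i))
  let B' := B.reindex e
  have hB' : ∀ i, B' i = vec (e.symm i) := by
    intro i
    change (B.reindex e) i = _
    rw [Module.Basis.reindex_apply, Module.Basis.mk_apply]
  let C : Matrix (Fin (Fintype.card (Σ i, Fin (d i)))) (Fin (Fintype.card (Σ i, Fin (d i)))) ℤ :=
    fun i j => (lam (B' i) (B' j)).coeff 1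
  have hC : ∀ i j, lam (B' i) (B' j) = single 1 (C i j) := by
    intro i j
    change _ = single 1 ((lam (B' i) (B' j)).coeff 1)
    rw [hB', hB']
    exact hprod _ _
  refine ⟨_, B', C, ?_, hC⟩
  have hw : ∀ j, ∃ w : L, ∀ x, B'.coord j x = lam x w := by
    intro j
    obtain ⟨w, hw, -⟩ := hns (B'.coord j)
    exact ⟨w, hw⟩
  choose w hw using hw
  let D : Matrix (Fin (Fintype.card (Σ i, Fin (d i)))) (Fin (Fintype.card (Σ i, Fin (d i)))) ℤ :=
    fun k j => (B'.repr (w j) k).coeff 1
  have hCD : C * D = 1 := by
    ext i j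
    have h1 : (lam (B' i) (w j)).coeff 1 = ∑ k, C i k * (B'.repr (w j) k).coeff 1 := by
      conv_lhs => rw [← B'.sum_repr (w j)]
      have h2 : ∀ s : Finset (Fin (Fintype.card (Σ i, Fin (d i)))),
          (lam (B' i) (∑ k ∈ s, B'.repr (w j) k • B' k)).coeff 1 =
            ∑ k ∈ s, C i k * (B'.repr (w j) k).coeff 1 := by
        intro s
        induction s using Finset.induction_on with
        | empty => rw [Finset.sum_empty, Finset.sum_empty, zero_right h]; rfl
        | insert k s hk ih =>
          rw [Finset.sum_insert hk, Finset.sum_insert hk, add_right h, MonoidAlgebra.coeff_add,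
            Finsupp.add_apply, ih]
          congr 1
          rw [h.herm (B'.repr (w j) k • B' k) (B' i) 1, inv_one, h.smul_left, hC k i,
            MonoidAlgebra.coeff_mul_single_apply, inv_one, mul_one, mul_comm]
          congr 1
          change (lam (B' k) (B' i)).coeff 1 = (lam (B' i) (B' k)).coeff 1
          rw [h.herm (B' i) (B' k) 1, inv_one]
      exact h2 _
    have h7 : (C * D) i j = (lam (B' i) (w j)).coeff 1 := by rw [h1, Matrix.mul_apply]
    rw [h7, ← hw j, Module.Basis.coord_apply, Module.Basis.repr_self,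
      Matrix.one_apply]
    by_cases hij : i = j
    · subst hij; simp
    · rw [Finsupp.single_apply, if_neg hij, if_neg hij]; rfl
  exact Matrix.isUnit_det_of_right_inverse hCD

end Pool.Agent.TH254.RF
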