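import Pool.Agent.TH254.RF.Classes

/-!
The decomposition of the lattice into sublattices permuted by the group, with finite stabilisers.
-/

set_option autoImplicit false

namespace Pool.Agent.TH254.RF

universe u v

variable {G : Type u} {L : Type v} [Group G] [AddCommGroup L] [DistribMulAction G L]

namespace Frame

variable (F : Frame G L)

/-- representatives of the classes modulo the group -/
lemma exists_reps (hgen : AddSubgroup.closure {x : L | F.b x x ≤ 2} = ⊤) :
    ∃ (m : ℕ) (r : Fin m → F.V), (∀ x : F.V, ∃ (i : Fin m) (g : G), F.R (x : L) (g • (r i : L))) ∧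
      ∀ (i j : Fin m) (g : G), F.R (r i : L) (g • (r j : L)) → i = j := by
  have hfin := F.finite_quot hgen
  let eq := Finite.equivFin (Quotient F.setoidG)
  refine ⟨_, fun i => (eq.symm i).out, ?_, ?_⟩
  · intro x
    refine ⟨eq (Quotient.mk F.setoidG x), ?_⟩
    have h1 : F.RG x (Quotient.mk F.setoidG x).out := by
      have : F.setoidG (Quotient.mk F.setoidG x).out x := Quotient.exact (Quotient.out_eq _)
      exact F.RG_equiv.symm this
    obtain ⟨g, hg⟩ := h1
    refine ⟨g, ?_⟩
    change F.R (x : L) (g • ((eq.symm (eq (Quotient.mk F.setoidG x))).out : L))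
    rw [Equiv.symm_apply_apply]
    exact hg
  · intro i j g hg
    have h1 : Quotient.mk F.setoidG (eq.symm i).out = Quotient.mk F.setoidG (eq.symm j).out :=
      Quotient.sound ⟨g, hg⟩
    rw [Quotient.out_eq, Quotient.out_eq] at h1
    exact eq.symm.injective h1

/-- the sublattice of a class -/
def K (x : L) : AddSubgroup L := AddSubgroup.closure (F.cls x)

lemma K_fg (x : L) : (F.K x).FG :=
  ⟨(F.cls_finite x).toFinset, by rw [Set.Finite.coe_toFinset]; rfl⟩

lemma K_stable {x : L} (hx : x ∈ F.V) {g : G} (hg : g ∈ F.stab x hx) {y : L} (hy : y ∈ F.K x) :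
    g • y ∈ F.K x := by
  unfold K at hy ⊢
  induction hy using AddSubgroup.closure_induction with
  | mem z hz =>
    refine AddSubgroup.subset_closure ⟨F.V_smul hz.1 g, ?_⟩
    exact F.R_trans (F.V_smul hx g) hg (F.R_smul hz.2 g)
  | zero => rw [smul_zero]; exact zero_mem _
  | add u v _ _ hu hv => rw [smul_add]; exact add_mem hu hv
  | neg u _ hu => rw [smul_neg]; exact neg_mem hu

/-- orthogonality of different translates -/
lemma K_orth {x y : L} {g : G} (h : ¬ F.R x (g • y)) {p q : L}
    (hp : p ∈ F.K x) (hq : q ∈ F.K y) : F.b p (g • q) = 0 := by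
  have h1 : ∀ s ∈ F.cls x, ∀ t ∈ F.cls y, F.b s (g • t) = 0 := by
    intro s hs t ht
    by_contra hne
    apply h
    have h2 : F.R s (g • t) := F.R_of_ne hs.1 hne
    have h3 : F.R (g • t) (g • y) := F.R_smul (F.R_symm ht.2) g
    exact F.R_trans hs.1 hs.2 (F.R_trans (F.V_smul ht.1 g) h2 h3)
  have h2 : ∀ s ∈ F.cls x, F.b s (g • q) = 0 := by
    intro s hs
    have : F.b (g⁻¹ • s) q = 0 := by
      refine F.orth_closure hq ?_
      intro t ht
      rw [F.inv', inv_inv]
      exact h1 s hs t ht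
    rw [F.inv', inv_inv] at this
    exact this
  rw [F.symm]
  refine F.orth_closure hp ?_
  intro s hs
  rw [F.symm]
  exact h2 s hs

/-- generation by the translates -/
lemma K_gen (hgen : AddSubgroup.closure {x : L | F.b x x ≤ 2} = ⊤) {m : ℕ} (r : Fin m → F.V)
    (hr : ∀ x : F.V, ∃ (i : Fin m) (g : G), F.R (x : L) (g • (r i : L))) (S : AddSubgroup L)
    (hS : ∀ (i : Fin m) (g : G), ∀ x ∈ F.K (r i : L), g • x ∈ S) : S = ⊤ := by
  rw [eq_top_iff, ← F.closure_V hgen, AddSubgroup.closure_le]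
  intro x hx
  obtain ⟨i, g, h⟩ := hr ⟨x, hx⟩
  have h1 : g⁻¹ • x ∈ F.K (r i : L) := by
    refine AddSubgroup.subset_closure ⟨F.V_smul hx _, ?_⟩
    have := F.R_smul h g⁻¹
    rw [inv_smul_smul] at this
    exact F.R_symm this
  have h2 := hS i g _ h1
  rwa [smul_inv_smul] at h2

/-- a positive definite form on a finitely generated subgroup is rationally nonsingular -/
lemma exists_mult (K : AddSubgroup L) (hK : K.FG) (φ : K →+ ℤ) :
    ∃ (N : ℤ) (u : L), N ≠ 0 ∧ u ∈ K ∧ ∀ x : K, F.b (x : L) u = N * φ x := by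
  classical
  have htf : ∀ (n : ℤ) (x : L), n • x = 0 → n = 0 ∨ x = 0 := by
    intro n x h
    by_cases hn : n = 0
    · left; exact hn
    right
    have h1 : n * F.b x x = 0 := by rw [← F.b_zsmul_left, h]; simp
    exact F.eq_zero ((mul_eq_zero.1 h1).resolve_left hn)
  have : Module.Finite ℤ K := by
    rw [Module.Finite.iff_addGroup_fg]
    exact (AddGroup.fg_iff_addSubgroup_fg K).2 hK
  have hT : Module.IsTorsionFree ℤ K := Module.IsTorsionFree.of_smul_eq_zero (by
    intro n x h
    have h1 : n • (x : L) = 0 := by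
      have := congrArg (fun y : K => (y : L)) h
      simpa using this
    rcases htf n x h1 with h2 | h2
    · left; exact h2
    · right; exact Subtype.ext h2)
  have hfree : Module.Free ℤ K := Module.free_of_finite_type_torsion_free'
  set d := Module.finrank ℤ K with hd
  set v : Module.Basis (Fin d) ℤ K := Module.finBasis ℤ K with hv
  set C : Matrix (Fin d) (Fin d) ℤ := fun i j => F.b (v i : L) (v j : L) with hC
  have hcomb : ∀ (z : Fin d → ℤ) (x : L), F.b x ((∑ j, z j • v j : K) : L) =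
      ∑ j, F.b x (v j : L) * z j := by
    intro z x
    rw [AddSubgroup.val_finsetSum, F.b_sum_right]
    refine Finset.sum_congr rfl fun j _ => ?_
    rw [AddSubgroup.coe_zsmul, F.b_zsmul_right, mul_comm]
  have hdet : C.det ≠ 0 := by
    intro h0
    obtain ⟨z, hz, hz0⟩ := Matrix.exists_mulVec_eq_zero_iff.2 h0
    apply hz
    have h1 : ∀ i, F.b (v i : L) ((∑ j, z j • v j : K) : L) = 0 := by
      intro i
      rw [hcomb]
      exact congrFun hz0 i
    have h2 : F.b ((∑ j, z j • v j : K) : L) ((∑ j, z j • v j : K) : L) = 0 := by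
      rw [hcomb]
      refine Finset.sum_eq_zero fun j _ => ?_
      rw [F.symm, h1, zero_mul]
    have h3 : (∑ j, z j • v j : K) = 0 := Subtype.ext (F.eq_zero h2)
    funext j
    exact Fintype.linearIndependent_iff.1 v.linearIndependent z h3 j
  set a : Fin d → ℤ := C.adjugate.mulVec (fun j => φ (v j)) with ha
  have hCa : C.mulVec a = fun i => C.det * φ (v i) := by
    rw [ha, Matrix.mulVec_mulVec, Matrix.mul_adjugate, Matrix.smul_mulVec, Matrix.one_mulVec]
    rfl
  refine ⟨C.det, ((∑ j, a j • v j : K) : L), hdet, Subtype.property _, ?_⟩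
  intro x
  have hb : ∀ i, F.b (v i : L) ((∑ j, a j • v j : K) : L) = C.det * φ (v i) := by
    intro i
    rw [hcomb]
    exact congrFun hCa i
  have hx : x = ∑ i, v.repr x i • v i := (v.sum_repr x).symm
  conv_lhs => rw [hx, AddSubgroup.val_finsetSum, F.b_sum_left]
  conv_rhs => rw [hx, map_sum, Finset.mul_sum]
  refine Finset.sum_congr rfl fun i _ => ?_
  rw [AddSubgroup.coe_zsmul, F.b_zsmul_left, hb, map_zsmul, smul_eq_mul]
  ring

/-- vectors with products divisible by `N` are divisible by `N` -/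
lemma exists_div (u : L) (N : ℤ) (h : ∀ x : L, N ∣ F.b u x) : ∃ u' : L, u = N • u' := by
  choose q hq using h
  refine ⟨∑ p ∈ F.S u, q (p.1 • F.w p.2) • (p.1 • F.e p.2), ?_⟩
  rw [Finset.smul_sum]
  conv_lhs => rw [F.frame u (F.S u) (fun p hp => (F.mem_S u p).2 hp)]
  refine Finset.sum_congr rfl fun p _ => ?_
  rw [hq, mul_smul]

/-- **unimodularity of orthogonal summands** -/
lemma unimodular (K : AddSubgroup L) (hK : K.FG) (T : AddSubgroup L)
    (hT : ∀ x ∈ K, ∀ y ∈ T, F.b x y = 0) (hKT : K ⊔ T = ⊤) (φ : K →+ ℤ) :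
    ∃ w ∈ K, ∀ x : K, φ x = F.b (x : L) w := by
  obtain ⟨N, u, hN, hu, hφ⟩ := F.exists_mult K hK φ
  have h1 : ∀ x : L, N ∣ F.b u x := by
    intro x
    have hx : x ∈ K ⊔ T := by rw [hKT]; trivial
    obtain ⟨k, hk, t, ht, rfl⟩ := AddSubgroup.mem_sup.1 hx
    rw [map_add, hT u hu t ht, add_zero, F.symm, hφ ⟨k, hk⟩]
    exact Dvd.intro _ rfl
  obtain ⟨u', hu'⟩ := F.exists_div u N h1
  have hx : u' ∈ K ⊔ T := by rw [hKT]; trivial
  obtain ⟨k, hk, t, ht, hkt⟩ := AddSubgroup.mem_sup.1 hx
  have h2 : F.b t t = 0 := by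
    have h3 : N * F.b u' t = 0 := by
      rw [← F.b_zsmul_left, ← hu']
      exact hT u hu t ht
    have h4 : F.b u' t = 0 := (mul_eq_zero.1 h3).resolve_left hN
    rw [← hkt, map_add, AddMonoidHom.add_apply, hT k hk t ht, zero_add] at h4
    exact h4
  have ht0 := F.eq_zero h2
  refine ⟨k, hk, fun x => ?_⟩
  have h5 : N * φ x = N * F.b (x : L) k := by
    rw [← hφ x, hu', ← hkt, ht0, add_zero, F.b_zsmul_right]
  exact mul_left_cancel₀ hN h5

end Frame

end Pool.Agent.TH254.RF
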