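import Pool.Agent.TH254.RF.Defs
import Pool.Agent.TH254.RF.Induced

/-!
Positive definite nonsingular hermitian forms over `ℤ[G]` generated by vectors of norm at most
two are induced from finite subgroups.
-/

set_option autoImplicit false

namespace Pool.Agent.TH254.RF

universe u v

open MonoidAlgebra (single)

section link

variable {G : Type u} [Group G] {L : Type v} [AddCommGroup L] [Module (MonoidAlgebra ℤ G) L]

/-- the action of the group on the module -/
@[reducible] noncomputable def act (G : Type u) [Group G] (L : Type v) [AddCommGroup L]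
    [Module (MonoidAlgebra ℤ G) L] : DistribMulAction G L :=
  DistribMulAction.compHom L (MonoidAlgebra.of ℤ G)

variable {lam : L → L → MonoidAlgebra ℤ G}

lemma coeff_right (h : IsHermitian lam) (x y : L) (g k : G) :
    (lam x (single g (1 : ℤ) • y)).coeff k = (lam x y).coeff (k * g) := by
  rw [h.herm (single g (1 : ℤ) • y) x k, h.smul_left, MonoidAlgebra.coeff_single_mul_apply, one_mul,
    h.herm x y, mul_inv_rev, inv_inv, inv_inv]

lemma coeff_left (h : IsHermitian lam) (x y : L) (g k : G) :
    (lam (single g (1 : ℤ) • x) y).coeff k = (lam x y).coeff (g⁻¹ * k) := by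
  rw [h.smul_left, MonoidAlgebra.coeff_single_mul_apply, one_mul]

lemma add_right (h : IsHermitian lam) (x y z : L) : lam x (y + z) = lam x y + lam x z := by
  apply MonoidAlgebra.coeff_injective
  ext g
  rw [h.herm (y + z) x g, h.add_left, MonoidAlgebra.coeff_add, MonoidAlgebra.coeff_add,
    Finsupp.add_apply, Finsupp.add_apply, h.herm y x g, h.herm z x g]

lemma zero_left (h : IsHermitian lam) (y : L) : lam 0 y = 0 := by
  have := h.smul_left 0 0 y
  rwa [zero_smul, zero_mul] at this

lemma zero_right (h : IsHermitian lam) (x : L) : lam x 0 = 0 := by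
  have := add_right h x 0 0
  rw [add_zero] at this
  exact left_eq_add.1 this

/-- the coefficient form -/
noncomputable def bform (h : IsHermitian lam) : L →+ L →+ ℤ :=
  AddMonoidHom.mk' (fun x => AddMonoidHom.mk' (fun y => (lam x y).coeff 1) (fun y z => by
    rw [add_right h, MonoidAlgebra.coeff_add, Finsupp.add_apply])) (fun x y => by
    ext z
    change (lam (x + y) z).coeff 1 = (lam x z).coeff 1 + (lam y z).coeff 1
    rw [h.add_left, MonoidAlgebra.coeff_add, Finsupp.add_apply])

lemma bform_apply (h : IsHermitian lam) (x y : L) : bform h x y = (lam x y).coeff 1 := rfl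

lemma smul_eq_sum (a : MonoidAlgebra ℤ G) (x : L) :
    a • x = ∑ g ∈ a.coeff.support, a.coeff g • (single g (1 : ℤ) • x) := by
  conv_lhs => rw [← MonoidAlgebra.sum_coeff_single a, Finsupp.sum, Finset.sum_smul]
  refine Finset.sum_congr rfl fun g _ => ?_
  rw [← smul_assoc]
  congr 1
  rw [MonoidAlgebra.smul_single, smul_eq_mul, mul_one]

/-- the frame of a nonsingular form on a finitely generated projective module -/
lemma exists_frame [Module.Finite (MonoidAlgebra ℤ G) L] [Module.Projective (MonoidAlgebra ℤ G) L]
    (h : IsHermitian lam) (hpos : PositiveDefinite lam) (hns : Nonsingular lam) :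
    letI := act G L
    ∃ F : Frame G L, F.b = bform h := by
  classical
  let _ := act G L
  obtain ⟨n, f, s, -, -, hfs⟩ := Module.Finite.exists_comp_eq_id_of_projective
    (MonoidAlgebra ℤ G) L
  have hw : ∀ i : Fin n, ∃ w : L, ∀ x, s x i = lam x w := by
    intro i
    obtain ⟨w, hw, -⟩ := hns ((LinearMap.proj i).comp s)
    exact ⟨w, hw⟩
  choose w hw using hw
  have hbg : ∀ (x y : L) (g : G), bform h x (g • y) = (lam x y).coeff g := by
    intro x y g
    change (lam x (single g (1 : ℤ) • y)).coeff 1 = _
    rw [coeff_right h, one_mul]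
  refine ⟨⟨bform h, ?_, ?_, hpos, ?_, n, fun i => f (Pi.single i 1), w, ?_⟩, rfl⟩
  · intro x y
    change (lam x y).coeff 1 = (lam y x).coeff 1
    rw [h.herm x y 1, inv_one]
  · intro g x y
    rw [hbg]
    change (lam (single g (1 : ℤ) • x) y).coeff g = _
    rw [coeff_left h, inv_mul_cancel]
    rfl
  · intro x y
    refine ((lam x y).coeff.support.finite_toSet).subset ?_
    intro g hg
    rw [Finset.mem_coe, Finsupp.mem_support_iff, ← hbg]
    exact hg
  · intro x T hT
    set e : Fin n → L := fun i => f (Pi.single i 1) with he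
    have h1 : x = ∑ i, lam x (w i) • e i := by
      have h2 : f (s x) = x := by
        have := congrArg (fun φ : L →ₗ[MonoidAlgebra ℤ G] L => φ x) hfs
        exact this
      conv_lhs => rw [← h2]
      have h3 : s x = ∑ i, s x i • (Pi.single i 1 : Fin n → MonoidAlgebra ℤ G) := by
        funext j
        rw [Finset.sum_apply, Finset.sum_eq_single j]
        · simp
        · intro i _ hij; simp [hij.symm]
        · simp
      rw [h3, map_sum]
      refine Finset.sum_congr rfl fun i _ => ?_
      rw [map_smul, hw i x]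
    set U : Finset G := (Finset.univ.biUnion fun i => (lam x (w i)).coeff.support) ∪
      T.image Prod.fst with hU
    have h4 : ∑ p ∈ T, bform h x (p.1 • w p.2) • (p.1 • e p.2) =
        ∑ p ∈ U ×ˢ (Finset.univ : Finset (Fin n)), bform h x (p.1 • w p.2) • (p.1 • e p.2) := by
      refine Finset.sum_subset ?_ ?_
      · intro p hp
        rw [Finset.mem_product]
        exact ⟨Finset.mem_union_right _ (Finset.mem_image_of_mem _ hp), Finset.mem_univ _⟩
      · intro p _ hp
        have : bform h x (p.1 • w p.2) = 0 := by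
          by_contra hne
          exact hp (hT p hne)
        rw [this, zero_smul]
    change x = ∑ p ∈ T, bform h x (p.1 • w p.2) • (p.1 • e p.2)
    rw [h4, Finset.sum_product_right]
    conv_lhs => rw [h1]
    refine Finset.sum_congr rfl fun i _ => ?_
    rw [smul_eq_sum]
    refine Finset.sum_subset_zero_on_sdiff ?_ ?_ ?_
    · intro g hg
      exact Finset.mem_union_left _ (Finset.mem_biUnion.2 ⟨i, Finset.mem_univ _, hg⟩)
    · intro g hg
      rw [Finset.mem_sdiff, Finsupp.mem_support_iff, not_not] at hg
      change bform h x (g • w i) • (g • e i) = 0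
      rw [hbg, hg.2, zero_smul]
    · intro g _
      change _ = bform h x (g • w i) • (g • e i)
      rw [hbg]
      rfl

/-- the decomposition, for a frame whose classes have representatives `r i` -/
lemma induced_of_reps (h : IsHermitian lam) (F : letI := act G L; Frame G L)
    (hF : letI := act G L; F.b = bform h)
    (hgen : AddSubgroup.closure {x : L | (lam x x).coeff 1 ≤ 2} = ⊤) {m : ℕ}
    (r : letI := act G L; Fin m → F.V)
    (hr : letI := act G L; ∀ x : F.V, ∃ (i : Fin m) (g : G), F.R (x : L) (g • (r i : L)))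
    (hr' : letI := act G L; ∀ (i j : Fin m) (g : G), F.R (r i : L) (g • (r j : L)) → i = j) :
    letI := act G L
    InducedFrom lam (fun i => F.stab (r i : L) (r i).2) (fun i => F.K (r i : L)) := by
  classical
  let _ := act G L
  have hb : ∀ x y : L, F.b x y = (lam x y).coeff 1 := fun x y => by rw [hF]; rfl
  have hbg : ∀ (x y : L) (g : G), F.b x (g • y) = (lam x y).coeff g := by
    intro x y g
    rw [hb]
    change (lam x (single g (1 : ℤ) • y)).coeff 1 = _
    rw [coeff_right h, one_mul]
  have hgen' : AddSubgroup.closure {x : L | F.b x x ≤ 2} = ⊤ := by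
    rw [← hgen]
    congr 1
    ext x
    change F.b x x ≤ 2 ↔ (lam x x).coeff 1 ≤ 2
    rw [hb]
  have horth : ∀ (i j : Fin m) (g : G), ¬ F.R (r i : L) (g • (r j : L)) →
      ∀ x ∈ F.K (r i : L), ∀ y ∈ F.K (r j : L), F.b x (g • y) = 0 :=
    fun i j g hn x hx y hy => F.K_orth hn hx hy
  refine ⟨?_, ?_, ?_, ?_, ?_, ?_, ?_⟩
  · intro i; exact F.stab_finite (r i).2
  · intro i; exact F.K_fg _
  · intro i g hg x hx
    exact F.K_stable (r i).2 hg hx
  · intro i φ
    set T : AddSubgroup L := AddSubgroup.closure {z : L | ∃ (j : Fin m) (g : G), ∃ y ∈ F.K (r j : L),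
      z = g • y ∧ ¬ F.R (r i : L) (g • (r j : L))} with hT
    obtain ⟨w, hw, hw'⟩ := F.unimodular (F.K (r i : L)) (F.K_fg _) T (by
      intro x hx y hy
      refine F.orth_closure hy ?_
      rintro _ ⟨j, g, y, hy, rfl, hn⟩
      exact horth i j g hn x hx y hy) (by
      refine F.K_gen hgen' r hr _ ?_
      intro j g x hx
      by_cases hR : F.R (r i : L) (g • (r j : L))
      · obtain rfl := hr' i j g hR
        exact (le_sup_left : F.K (r i : L) ≤ F.K (r i : L) ⊔ T)
          (F.K_stable (r i).2 ((F.mem_stab (r i).2 g).2 hR) hx)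
      · exact (le_sup_right : T ≤ F.K (r i : L) ⊔ T)
          (AddSubgroup.subset_closure ⟨j, g, x, hx, rfl, hR⟩)) φ
    exact ⟨w, hw, fun x => by rw [hw' x, hb]⟩
  · intro i x hx y hy g hg
    rw [← hbg]
    exact horth i i g hg x hx y hy
  · intro i j hij x hx y hy
    apply MonoidAlgebra.coeff_injective
    ext g
    rw [← hbg]
    exact horth i j g (fun hR => hij (hr' i j g hR)) x hx y hy
  · rw [eq_top_iff]
    intro z _
    have h1 := F.K_gen hgen' r hr (Submodule.span (MonoidAlgebra ℤ G)
      (⋃ i, (F.K (r i : L) : Set L))).toAddSubgroup (by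
        intro i g x hx
        refine (Submodule.span (MonoidAlgebra ℤ G) (⋃ i, (F.K (r i : L) : Set L))).smul_mem
          (single g (1 : ℤ)) (Submodule.subset_span ?_)
        exact Set.mem_iUnion.2 ⟨i, hx⟩)
    have h2 : z ∈ (Submodule.span (MonoidAlgebra ℤ G)
      (⋃ i, (F.K (r i : L) : Set L))).toAddSubgroup := by rw [h1]; trivial
    exact h2

/-- **the general theorem** -/
theorem main_induced [Module.Finite (MonoidAlgebra ℤ G) L]
    [Module.Projective (MonoidAlgebra ℤ G) L] (h : IsHermitian lam) (hpos : PositiveDefinite lam)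
    (hns : Nonsingular lam) (hgen : AddSubgroup.closure {x : L | (lam x x).coeff 1 ≤ 2} = ⊤) :
    ∃ (m : ℕ) (F : Fin m → Subgroup G) (K : Fin m → AddSubgroup L), InducedFrom lam F K := by
  let _ := act G L
  obtain ⟨F, hF⟩ := exists_frame h hpos hns
  have hgen' : AddSubgroup.closure {x : L | F.b x x ≤ 2} = ⊤ := by
    rw [← hgen]
    congr 1
    ext x
    change F.b x x ≤ 2 ↔ (lam x x).coeff 1 ≤ 2
    rw [hF]; rfl
  obtain ⟨m, r, hr, hr'⟩ := F.exists_reps hgen'
  exact ⟨m, _, _, induced_of_reps h F hF hgen r hr hr'⟩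

end link

end Pool.Agent.TH254.RF
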